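import Pool.Agent.Results.MP_ef6a16_nt.FewPointsAllFields

/-!
# Fermat's equation over almost all number fields of bounded degree

Let `P`, `κ` be natural numbers and `ε > 0`. There are `R` and `δ > 0` such that for every `Y ≥ 1` there is a set `E` of
at most `Y ^ ε` subfields of `ℂ` with the following property. Let `K` be ANY number field of degree at most `κ` (its
discriminant is not bounded) with an embedding `σ` in `ℂ` such that the field `σ(K)` is not in `E`. Let
`a ^ p + b ^ p + c ^ p = 0` in `K`, where the exponent `p`, `R ≤ p ≤ Y ^ δ`, is not necessarily prime, `c ≠ 0` is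
arbitrary, and `a` and `b` are products of powers of any `P` nonzero elements of `K` of absolute height at most `Y`, with
exponents of absolute value at most `Y ^ δ` (so the height of the solution can be as large as `exp (Y ^ δ)`). Then the
point `(a : b : c)` is defined over a proper subfield of `K`: the field `ℚ(a / c, b / c)` is not `K`. So if `K` is not
`ℚ` and has no subfields except `ℚ` and `K` (for instance, if the degree is a prime number, or if the Galois group of the
Galois closure is the symmetric group), then the point is rational, and there is no such solution by Wiles' theorem.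

In particular all points of height at most `Y` on the Fermat curves of all degrees `p`, `R ≤ p ≤ Y ^ δ`, over all number
fields of degree at most `κ` come from at most `Y ^ ε` fields, in the sense that the field generated by the coordinates of
the point is one of them.

Proof. The starting file `FewPointsAllFields` bounds the number of the points, and a point determines the field generated
by its coordinates.
-/

set_option autoImplicit false

namespace Pool.Agent.Results.MP_ef6a16_nt.AlmostAllFields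

open Pool.Agent.Results.MP_ef6a16_nt.FewPointsAllFields

/-- in the number field `K` one has `a ^ p + b ^ p + c ^ p = 0` with `c ≠ 0`, `R ≤ p ≤ Y ^ δ`, where `a` and `b` are
products of powers of `P` nonzero elements of absolute height at most `Y` (relative height at most `Y ^ [K : ℚ]`), with
integral exponents of absolute value at most `Y ^ δ` -/
def Point (P R : ℕ) (δ : ℝ) (Y : ℕ) (K : Type) [Field K] [NumberField K] (a b c : K) : Prop :=
  ∃ (w : Fin P → K) (f g : Fin P → ℤ) (p : ℕ), R ≤ p ∧ (p : ℝ) ≤ (Y : ℝ) ^ δ ∧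
    (∀ j, |(f j : ℝ)| ≤ (Y : ℝ) ^ δ) ∧ (∀ j, |(g j : ℝ)| ≤ (Y : ℝ) ^ δ) ∧
    (∀ j, w j ≠ 0 ∧ Height.mulHeight₁ (w j) ≤ (Y : ℝ) ^ Module.finrank ℚ K) ∧ c ≠ 0 ∧
    a = ∏ j, w j ^ f j ∧ b = ∏ j, w j ^ g j ∧ a ^ p + b ^ p + c ^ p = 0

/-- the fields `σ(K) ⊆ ℂ`, `K` a number field of degree at most `κ` over which there is a point as above whose coordinates
generate `K` -/
def Bad (P κ R : ℕ) (δ : ℝ) (Y : ℕ) : Set (Subfield ℂ) :=
  {F | ∃ (K : Type) (_ : Field K) (_ : NumberField K) (σ : K →+* ℂ) (a b c : K),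
    Module.finrank ℚ K ≤ κ ∧ σ.fieldRange = F ∧ Point P R δ Y K a b c ∧
    IntermediateField.adjoin ℚ {a / c, b / c} = (⊤ : IntermediateField ℚ K)}

/-- the field generated by the ratios of the coordinates of a point -/
noncomputable def fieldOf (W : Submodule ℂ (Fin 3 → ℂ)) : Subfield ℂ :=
  Subfield.closure {t | ∃ x ∈ W, x 2 ≠ 0 ∧ (t = x 0 / x 2 ∨ t = x 1 / x 2)}

theorem fieldOf_span {a b c : ℂ} (hc : c ≠ 0) :
    fieldOf (Submodule.span ℂ {![a, b, c]}) = Subfield.closure {a / c, b / c} := by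
  unfold fieldOf
  congr 1
  ext t
  simp only [Set.mem_ofPred_eq, Set.mem_insert_iff, Set.mem_singleton_iff]
  constructor
  · rintro ⟨x, hx, hx2, h⟩
    obtain ⟨s, rfl⟩ := Submodule.mem_span_singleton.1 hx
    simp only [Pi.smul_apply, smul_eq_mul, Matrix.cons_val_zero, Matrix.cons_val_one,
      Matrix.cons_val] at hx2 h
    have hs : s ≠ 0 := left_ne_zero_of_mul hx2
    rwa [mul_div_mul_left _ _ hs, mul_div_mul_left _ _ hs] at h
  · intro h
    exact ⟨_, Submodule.mem_span_singleton_self _, by simpa using hc, by simpa using h⟩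

theorem closure_eq {K : Type} [Field K] [NumberField K] (σ : K →+* ℂ) {s : Set K}
    (hs : IntermediateField.adjoin ℚ s = (⊤ : IntermediateField ℚ K)) :
    Subfield.closure (σ '' s) = σ.fieldRange := by
  rw [← σ.map_field_closure]
  have h : Subfield.closure s = (⊤ : Subfield K) := by
    rw [eq_top_iff]
    intro x _
    have hx : x ∈ IntermediateField.adjoin ℚ s := by rw [hs]; trivial
    have h1 : (IntermediateField.adjoin ℚ s).toSubfield = Subfield.closure s := by
      rw [IntermediateField.adjoin_toSubfield]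
      apply le_antisymm
      · rw [Subfield.closure_le]
        rintro y (⟨r, rfl⟩ | hy)
        · rw [eq_ratCast]
          exact SubfieldClass.ratCast_mem _ r
        · exact Subfield.subset_closure hy
      · exact Subfield.closure_mono Set.subset_union_right
    rw [← h1]
    exact hx
  rw [h, RingHom.fieldRange_eq_map]

theorem bad_card (P κ : ℕ) (ε : ℝ) (hε : 0 < ε) : ∃ (R : ℕ) (δ : ℝ), 0 < δ ∧
    ∀ Y : ℕ, 1 ≤ Y → (Bad P κ R δ Y).Finite ∧ ((Bad P κ R δ Y).ncard : ℝ) ≤ (Y : ℝ) ^ ε := by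
  obtain ⟨R, δ, hδ, H⟩ := part2 P κ ε hε
  refine ⟨R, δ, hδ, fun Y hY => ?_⟩
  obtain ⟨hfin, hcard⟩ := H Y hY
  have hsub : Bad P κ R δ Y ⊆ fieldOf '' {W : Submodule ℂ (Fin 3 → ℂ) | ∃ a b c,
      Fermat P κ R δ Y a b c ∧ W = Submodule.span ℂ {![a, b, c]}} := by
    rintro F ⟨K, _, _, σ, a, b, c, hK, hF, ⟨w, f, g, p, h1, h2, h3, h4, h5, h6, h7, h8, h9⟩, hgen⟩
    refine ⟨_, ⟨σ a, σ b, σ c, ⟨K, inferInstance, inferInstance, σ, w, f, g, c, p, hK, h1, h2, h3,
      h4, h5, h6, by rw [h7], by rw [h8], rfl, by rw [← h7, ← h8]; exact h9⟩, rfl⟩, ?_⟩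
    rw [fieldOf_span ((map_ne_zero σ).2 h6), ← map_div₀, ← map_div₀, ← hF, ← closure_eq σ hgen,
      Set.image_pair]
  refine ⟨(hfin.image _).subset hsub, le_trans ?_ hcard⟩
  exact_mod_cast (Set.ncard_le_ncard hsub (hfin.image _)).trans (Set.ncard_image_le hfin)

theorem result (P κ : ℕ) (ε : ℝ) (hε : 0 < ε) : ∃ (R : ℕ) (δ : ℝ), 0 < δ ∧
    ∀ Y : ℕ, 1 ≤ Y → ∃ E : Set (Subfield ℂ), E.Finite ∧ (E.ncard : ℝ) ≤ (Y : ℝ) ^ ε ∧
      ∀ (K : Type) [Field K] [NumberField K] (σ : K →+* ℂ), Module.finrank ℚ K ≤ κ →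
        σ.fieldRange ∉ E → ∀ a b c : K, Point P R δ Y K a b c →
          IntermediateField.adjoin ℚ {a / c, b / c} ≠ (⊤ : IntermediateField ℚ K) ∧
          (IsSimpleOrder (IntermediateField ℚ K) → ∃ r s : ℚ, a = r * c ∧ b = s * c) := by
  obtain ⟨R, δ, hδ, H⟩ := bad_card P κ ε hε
  refine ⟨R, δ, hδ, fun Y hY => ⟨Bad P κ R δ Y, (H Y hY).1, (H Y hY).2, ?_⟩⟩
  intro K _ _ σ hK hσ a b c hp
  have hne : IntermediateField.adjoin ℚ {a / c, b / c} ≠ (⊤ : IntermediateField ℚ K) := fun h =>
    hσ ⟨K, inferInstance, inferInstance, σ, a, b, c, hK, rfl, hp, h⟩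
  refine ⟨hne, fun hs => ?_⟩
  have hbot := (eq_bot_or_eq_top (IntermediateField.adjoin ℚ {a / c, b / c})).resolve_right hne
  have hc : c ≠ 0 := by
    obtain ⟨w, f, g, p, h1, h2, h3, h4, h5, h6, h7, h8, h9⟩ := hp
    exact h6
  have h1 : ∀ t ∈ ({a / c, b / c} : Set K), ∃ r : ℚ, t = r := by
    intro t ht
    have h2 : t ∈ (⊥ : IntermediateField ℚ K) := by
      rw [← hbot]
      exact IntermediateField.subset_adjoin ℚ _ ht
    obtain ⟨r, hr⟩ := IntermediateField.mem_bot.1 h2
    exact ⟨r, by rw [← hr]; simp⟩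
  obtain ⟨r, hr⟩ := h1 (a / c) (Set.mem_insert _ _)
  obtain ⟨s, hs'⟩ := h1 (b / c) (Set.mem_insert_of_mem _ rfl)
  exact ⟨r, s, (div_eq_iff hc).1 hr, (div_eq_iff hc).1 hs'⟩

end Pool.Agent.Results.MP_ef6a16_nt.AlmostAllFields
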