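import Pool.Agent.H47N.AsmD
import Pool.Agent.H47N.AsmG
import Pool.Agent.H47N.ARA
import Pool.Agent.H47N.ARB
import Pool.Agent.H47N.GENN
import Pool.Agent.H47N.LIN
import Pool.Agent.H47N.VALR
import Pool.Agent.H47N.NF6
import Pool.Agent.H47N.FINQ
import Pool.Agent.H47C.FLTR

/-!
# Fermat's equation with an exponent divisible by three over cubic fields

**Theorem.** Let `K` be a cubic field, let `x, y, z ∈ K` be nonzero with `x ^ (3 n) + y ^ (3 n) = z ^ (3 n)`. Let `N` be the
norm to `ℚ`.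
(1) `N(x) ^ n + N(y) ^ n = N(z) ^ n`, or for EVERY odd divisor `m ≥ 3` of `n` there are coprime nonzero integers
`c, d`, `d > 1`, and `b ≠ 0` with `c ^ (2 m) + 3 b ^ 2 = 4 d ^ m` (`NontrivialSolution m`). By Wiles the first is impossible for
`n ≥ 3`, by Bennett and Skinner (Ternary Diophantine equations via Galois representations and modular
forms, 2004, the equation `x ^ m + 2 ^ α y ^ m = 3 z ^ 2`, `α ≥ 2`) the second if a prime `m ≥ 7` divides `n`: so there is no
solution over any cubic field if the exponent is divisible by `3 m`, `m ≥ 7` prime. For `m = 3` both are impossible by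
Euler, so (without any hypothesis) there is no solution over any cubic field if the exponent is divisible by `9`.
(2) `N(x) ^ n + N(y) ^ n = N(z) ^ n` or the solution is exceptional: `K` has at least two primes above `3`; if
`3` is unramified in `K` then none of `x, y, z` is divisible by all primes above `3`; and the `3`-adic
valuations of `N (x ^ n + y ^ n)`, `N (y ^ n - z ^ n)`, `N (x ^ n - z ^ n)` are pairwise incongruent modulo `3`. So by Wiles for
`n ≥ 3` there is no solution in any cubic field with only one prime above `3`.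

Proof. `X = x ^ n`, `Y = y ^ n`, `Z = - z ^ n`: a point `P` over `K` of the cubic `X ^ 3 + Y ^ 3 + Z ^ 3 = 0`, which has only
three rational points (Euler). (COL2) There is a rational conic tangent to the cubic at
`(1 : -1 : 0)` which contains `P` and its conjugates `P'`, `P''`. Its sixth intersection with the cubic is a
rational point. If it is `(1 : -1 : 0)` then `P, P', P''` are collinear; if it is one of the others
then `A a c + B a σ + C σ ^ 2 = 0` with `a = X + Y`, `b = Y + Z`, `c = X + Z`, `σ = X + Y + Z` and rational `A, B, C`, or the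
same with `b` in place of `c`. (NSUM) In the collinear case `N(X) + N(Y) + N(Z) = 0`.

(1) Let the points be not collinear, `n` odd. `N(a) : N(b) : N(c) = 9 C ^ 3 : A ^ 3 : 3 B ^ 3` and
`3 A B N(Z) = - Q_Z N(σ)`, `Q_Z = A ^ 2 + 3 A (B + C) + 3 (B + C) ^ 2`, with similar forms for `N(X), N(Y)` (NF6). The
valuations of `a, b, c` at the primes outside `3` (VALR) show that the coprime integers `A, B, C` are
`n`-th powers up to powers of `3` (ARA), and after a cyclic permutation of `X, Y, Z` (`A, B, C ↦ B, C, A / 3`)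
`3 ∤ A`. Then `Q_Z` is an `n`-th power `q ^ n` (ARB) and `4 q ^ n = A ^ 2 + 3 (A + 2 (B + C)) ^ 2`. After removing common
factors (FINQ) this is a solution as claimed with `d > 1`, or `B + C = 0` or `A + B + C = 0`. In the first of these
cases the same argument with `Q_X` applies (`3 ∣ C`), the second contradicts the valuations at `3`.

(2) (INC) In the non-collinear case `N (σ / a) = A B / C ^ 2`, `N (c / σ) = B ^ 2 / (3 A C)`, so `3 N(c) / N(a)` is a cube.
(KIL) If there is only one prime `w` above `3` then `v (N η) = v (η) ^ 3` (VN) and a comparison of the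
valuations of the four terms of `6 t r - 3 r - 3 r ^ 2 t = t ^ 2` (`t = σ / a`, `r = c / σ`) gives a contradiction.
(LOC2, COL) If `3` is unramified and all primes above `3` divide `Z` then `a / (3 Z)` is integral at `3` and the
second case is impossible modulo `3`.

Pieces were proved by helpers 6, 7, 11, 21, 30, 31, 35, 36, 41, 51, 58, 68, 75, 86.
-/

set_option autoImplicit false

namespace Pool.Agent.Results.MP_ef6a16_nt.CubicFields

open NumberField IsDedekindDomain Pool.Agent.H47N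

/-- The exceptional alternative for a solution of `x ^ (3 n) + y ^ (3 n) = z ^ (3 n)` in the cubic field `K`. -/
def Exceptional (K : Type) [Field K] [NumberField K] (n : ℕ) (x y z : K) : Prop :=
  -- `K` has at least two primes above `3`
  (∃ w w' : HeightOneSpectrum (𝓞 K), w ≠ w' ∧ (3 : 𝓞 K) ∈ w.asIdeal ∧ (3 : 𝓞 K) ∈ w'.asIdeal) ∧
  -- if `3` is unramified, none of `x, y, z` has a smaller absolute value than the two others at all
  -- primes above `3`
  ((∀ w : HeightOneSpectrum (𝓞 K), (3 : 𝓞 K) ∈ w.asIdeal → (3 : 𝓞 K) ∉ w.asIdeal ^ 2) →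
    (∃ w : HeightOneSpectrum (𝓞 K), (3 : 𝓞 K) ∈ w.asIdeal ∧
      w.valuation K x ≤ w.valuation K z) ∧
    (∃ w : HeightOneSpectrum (𝓞 K), (3 : 𝓞 K) ∈ w.asIdeal ∧
      w.valuation K y ≤ w.valuation K x) ∧
    (∃ w : HeightOneSpectrum (𝓞 K), (3 : 𝓞 K) ∈ w.asIdeal ∧
      w.valuation K z ≤ w.valuation K y)) ∧
  -- the `3`-adic valuations of the three norms are pairwise incongruent modulo `3`
  ¬ (3 : ℤ) ∣ padicValRat 3 (Algebra.norm ℚ (x ^ n + y ^ n)) -
    padicValRat 3 (Algebra.norm ℚ (y ^ n - z ^ n)) ∧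
  ¬ (3 : ℤ) ∣ padicValRat 3 (Algebra.norm ℚ (y ^ n - z ^ n)) -
    padicValRat 3 (Algebra.norm ℚ (x ^ n - z ^ n)) ∧
  ¬ (3 : ℤ) ∣ padicValRat 3 (Algebra.norm ℚ (x ^ n - z ^ n)) -
    padicValRat 3 (Algebra.norm ℚ (x ^ n + y ^ n))

/-- `c ^ (2 m) + 3 b ^ 2 = 4 d ^ m` has a solution in nonzero integers, `c` and `d` coprime, `d > 1`, `3 ∤ c`. -/
def NontrivialSolution (m : ℕ) : Prop :=
  ∃ c d b : ℤ, IsCoprime c d ∧ 1 < d ∧ c ≠ 0 ∧ b ≠ 0 ∧ ¬ (3 : ℤ) ∣ c ∧
    c ^ (2 * m) + 3 * b ^ 2 = 4 * d ^ m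

theorem norm_or_solution (K : Type) [Field K] [NumberField K] (hK : Module.finrank ℚ K = 3)
    (n : ℕ) (x y z : K) (hx : x ≠ 0) (hy : y ≠ 0) (hz : z ≠ 0)
    (h : x ^ (3 * n) + y ^ (3 * n) = z ^ (3 * n)) (m : ℕ) (hm : Odd m) (h3 : 3 ≤ m) (hmn : m ∣ n) :
    Algebra.norm ℚ x ^ n + Algebra.norm ℚ y ^ n = Algebra.norm ℚ z ^ n ∨ NontrivialSolution m := by
  obtain ⟨k, rfl⟩ := hmn
  have e : ∀ w : K, w ^ (3 * (m * k)) = (w ^ k) ^ (3 * m) := fun w => by
    rw [← pow_mul]; congr 1; ring
  rw [e, e, e] at h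
  rcases allCubic t_LIN t_NF6 t_VALR t_GENN t_ARA t_ARB t_FINQ K hK m hm h3 (x ^ k) (y ^ k) (z ^ k)
    (pow_ne_zero _ hx) (pow_ne_zero _ hy) (pow_ne_zero _ hz) h with h1 | h1
  · left
    rw [map_pow, map_pow, map_pow, ← pow_mul, ← pow_mul, ← pow_mul, mul_comm k m] at h1
    exact h1
  · right
    exact h1

theorem norm_relation (K : Type) [Field K] [NumberField K] (hK : Module.finrank ℚ K = 3) (n : ℕ)
    (x y z : K) (hx : x ≠ 0) (hy : y ≠ 0) (hz : z ≠ 0)
    (h : x ^ (3 * n) + y ^ (3 * n) = z ^ (3 * n)) :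
    Algebra.norm ℚ x ^ n + Algebra.norm ℚ y ^ n = Algebra.norm ℚ z ^ n ∨
      Exceptional K n x y z := by
  have hn : n ≠ 0 := by
    rintro rfl
    rw [mul_zero, pow_zero, pow_zero, pow_zero] at h
    have h1 : (1 : K) = 0 := by linear_combination h
    exact one_ne_zero h1
  have h1 : (x ^ n) ^ 3 + (y ^ n) ^ 3 + (-(z ^ n)) ^ 3 = 0 := by
    have e : ∀ w : K, w ^ (3 * n) = (w ^ n) ^ 3 := fun w => by rw [mul_comm, pow_mul]
    rw [e, e, e] at h
    rw [Odd.neg_pow (by decide), h]
    ring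
  have hlt : ∀ (w : HeightOneSpectrum (𝓞 K)) (a b : K), w.valuation K a < w.valuation K b →
      w.valuation K (a ^ n) < w.valuation K (b ^ n) := by
    intro w a b hab
    rw [map_pow, map_pow]
    exact pow_lt_pow_left₀ hab zero_le hn
  rcases norm_or_exc K hK (x ^ n) (y ^ n) (-(z ^ n)) (pow_ne_zero _ hx)
    (pow_ne_zero _ hy) (neg_ne_zero.2 (pow_ne_zero _ hz)) h1 with h2 | ⟨k1, k2, k3, k4, k5⟩
  · left
    have h4 : Algebra.norm ℚ (-(z ^ n)) = -(Algebra.norm ℚ z ^ n) := by
      have e : -(z ^ n) = algebraMap ℚ K (-1) * z ^ n := by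
        rw [map_neg, map_one]; ring
      rw [e, map_mul, map_pow, Algebra.norm_algebraMap, hK]
      ring
    rw [h4, map_pow, map_pow] at h2
    linarith
  · right
    refine ⟨k1, fun hunr => ?_, ?_, ?_, ?_⟩
    · obtain ⟨⟨w1, h31, hw1⟩, ⟨w2, h32, hw2⟩, ⟨w3, h33, hw3⟩⟩ := k2 hunr
      refine ⟨⟨w1, h31, ?_⟩, ⟨w2, h32, ?_⟩, ⟨w3, h33, ?_⟩⟩
      · by_contra h5
        rw [not_le] at h5
        apply hw1
        rw [Valuation.map_neg]
        exact hlt w1 z x h5
      · by_contra h5
        rw [not_le] at h5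
        exact hw2 (hlt w2 x y h5)
      · by_contra h5
        rw [not_le] at h5
        apply hw3
        rw [Valuation.map_neg]
        exact hlt w3 y z h5
    · simpa only [← sub_eq_add_neg] using k3
    · simpa only [← sub_eq_add_neg] using k4
    · simpa only [← sub_eq_add_neg] using k5

/-- The case `m = 3`: `(c ^ 3 + b) ^ 3 + (c ^ 3 - b) ^ 3 = (2 c d) ^ 3`. -/
theorem not_three : ¬ NontrivialSolution 3 := by
  rintro ⟨c, d, b, hcd, hd, hc, -, -, h⟩
  have h1 : (c ^ 3 + b) ^ 3 + (c ^ 3 - b) ^ 3 = (2 * c * d) ^ 3 := by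
    linear_combination (2 * c ^ 3) * h
  have hF := fermatLastTheoremFor_iff_int.1 fermatLastTheoremThree
  have hd0 : d ≠ 0 := by omega
  have h2 : b ^ 2 = c ^ 6 := by
    by_cases h3 : c ^ 3 + b = 0
    · have : b = -c ^ 3 := by linarith
      rw [this]; ring
    · by_cases h4 : c ^ 3 - b = 0
      · have : b = c ^ 3 := by linarith
        rw [this]; ring
      · exact absurd h1 (hF _ _ _ h3 h4 (by positivity))
  have h5 : (c ^ 2) ^ 3 = d ^ 3 := by
    rw [h2] at h
    have h6 : 4 * (c ^ 2) ^ 3 = 4 * d ^ 3 := by linear_combination h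
    linarith
  have h7 : c ^ 2 = d := (Odd.strictMono_pow (by decide : Odd 3)).injective h5
  rw [← h7] at hcd
  have h8 : IsUnit c := hcd.isUnit_of_dvd' dvd_rfl (dvd_pow_self c two_ne_zero)
  rcases Int.isUnit_iff.1 h8 with h9 | h9
  · rw [h9] at h7; omega
  · rw [h9] at h7; omega

/-- Let `K` be a cubic field, `x, y, z ∈ K` nonzero, `x ^ (3 n) + y ^ (3 n) = z ^ (3 n)`. Then `3 ∤ n`, and
`N(x) ^ n + N(y) ^ n = N(z) ^ n` or the solution is exceptional and for every odd divisor `m ≥ 3` of `n` the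
equation `c ^ (2 m) + 3 b ^ 2 = 4 d ^ m` has a nontrivial coprime solution. If Fermat's Last Theorem holds for the
exponent `n` (over `ℚ`), or `n` is divisible by `4` or by a regular prime `p ≥ 5`, then only the second is
possible. -/
theorem result (K : Type) [Field K] [NumberField K] (hK : Module.finrank ℚ K = 3) (n : ℕ)
    (x y z : K) (hx : x ≠ 0) (hy : y ≠ 0) (hz : z ≠ 0)
    (h : x ^ (3 * n) + y ^ (3 * n) = z ^ (3 * n)) :
    ¬ 3 ∣ n ∧
    (Algebra.norm ℚ x ^ n + Algebra.norm ℚ y ^ n = Algebra.norm ℚ z ^ n ∨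
      (Exceptional K n x y z ∧ ∀ m : ℕ, Odd m → 3 ≤ m → m ∣ n → NontrivialSolution m)) ∧
    ((FermatLastTheoremFor n ∨ 4 ∣ n ∨ ∃ p : ℕ, p.Prime ∧ 5 ≤ p ∧ p ∣ n ∧
      (NumberField.classNumber (CyclotomicField p ℚ)).Coprime p) →
      Exceptional K n x y z ∧ ∀ m : ℕ, Odd m → 3 ≤ m → m ∣ n → NontrivialSolution m) := by
  have h0 : Algebra.norm ℚ x ^ n + Algebra.norm ℚ y ^ n = Algebra.norm ℚ z ^ n ∨
      (Exceptional K n x y z ∧ ∀ m : ℕ, Odd m → 3 ≤ m → m ∣ n → NontrivialSolution m) := by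
    rcases norm_relation K hK n x y z hx hy hz h with h1 | h1
    · exact Or.inl h1
    · by_cases h2 : Algebra.norm ℚ x ^ n + Algebra.norm ℚ y ^ n = Algebra.norm ℚ z ^ n
      · exact Or.inl h2
      · refine Or.inr ⟨h1, fun m hm h3 hmn => ?_⟩
        rcases norm_or_solution K hK n x y z hx hy hz h m hm h3 hmn with h4 | h4
        · exact absurd h4 h2
        · exact h4
  have hno : FermatLastTheoremFor n →
      ¬ (Algebra.norm ℚ x ^ n + Algebra.norm ℚ y ^ n = Algebra.norm ℚ z ^ n) := by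
    intro hF h2
    have hQ : FermatLastTheoremWith ℚ n := fermatLastTheoremFor_iff_rat.1 hF
    exact hQ _ _ _ (Algebra.norm_ne_zero_iff.2 hx) (Algebra.norm_ne_zero_iff.2 hy)
      (Algebra.norm_ne_zero_iff.2 hz) h2
  refine ⟨fun h3 => ?_, h0, fun h1 => ?_⟩
  · rcases h0 with h2 | h2
    · exact hno (fermatLastTheoremThree.mono h3) h2
    · exact not_three (h2.2 3 (by decide) le_rfl h3)
  · rcases h0 with h2 | h2
    · exfalso
      refine hno ?_ h2
      rcases h1 with h1 | h1 | ⟨p, hp, h5, hpn, hreg⟩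
      · exact h1
      · exact fermatLastTheoremFour.mono h1
      · have : Fact p.Prime := ⟨hp⟩
        have h6 : FermatLastTheoremFor p :=
          fermatLastTheoremFor_iff_int.2 (Pool.Agent.H47C.mainFLTR p h5 hreg)
        exact h6.mono hpn
    · exact h2

end Pool.Agent.Results.MP_ef6a16_nt.CubicFields
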