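import Pool.Agent.H47T.Asm2
import Pool.Agent.H47T.EVA
import Pool.Agent.H47T.LOC2
import Pool.Agent.H47T.LOCP
import Pool.Agent.H47T.ALLU
import Pool.Agent.H47T.FIN
import Pool.Agent.H47T.SQ8
import Pool.Agent.H47T.CND
import Pool.Agent.H47T.CND2
import Pool.Agent.H47T.LIN
import Pool.Agent.H47T.KUM
import Pool.Agent.H47T.DEN
import Pool.Agent.H47T.SYM

/-!
# Even exponents over almost arbitrary number fields

Let `K` be a number field with a prime `v` above two such that
* the ramification index of `v` is odd; or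
* `v` has norm two and its ramification index is not divisible by four; or
* `v` has norm two and in the completion `K_v` neither `-1` and `2` nor `-2` and `-5` are both squares.

For instance the degree of `K` is odd or two, or two is unramified in `K`, or (more generally)
unramified at one place above two. Then there is a set of primes `p` of positive lower density
for which the first case of Fermat's Last Theorem holds over `K` for all exponents divisible by
`2 p`. There is no condition on the class group, the units and the signature of `K` and no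
condition of Bernoulli or Wieferich type. If `K` contains a primitive twelfth root of unity
(`ω = ζ ^ 4`, `i = ζ ^ 3`) then `ω ^ (2 p) + (ω ^ 2) ^ (2 p) = i ^ (2 p)` for all primes `p ≥ 5`, so a
condition of this kind is needed; there all ramification indices and residue degrees above two
are even.

Proof. Let `x ^ (2 p) + y ^ (2 p) = z ^ (2 p)` in the first case. By the condition on `v` the valuations
of `x, y, z` at `v` are not all equal. Write the equation as `X ^ p + Y ^ p = Z ^ p` with `X, Y, Z` plus or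
minus the squares, `Z` the more divisible one. Then `A = (X ^ p + Y ^ p) / (X + Y)` has even
valuations everywhere, `A / p` is a square in `K_v`, and `A` is a square at all primes above
`p`. The square classes of elements with even valuations form a finite group. By the condition on
`v` there are `q ∈ {3, 5, 7}` and a homomorphism `χ` from `K_v ^ *` to `{1, -1}` with `χ (-1) = (-1 | q)`,
`χ 2 = (2 | q)` and `χ q = -1`. By Kummer theory and Chebotarev there are many `p` with a prime `w`
of degree one above `p` at which the quadratic symbols of `-1`, `2` and of the elements `f` with even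
valuations are `χ f`. Then `p = q` modulo `8`, so `χ A = χ p = χ q = -1`, but `A` is a square at `w`. No
reciprocity law is used.
-/

set_option autoImplicit false

namespace Pool.Agent.Results.MP_ef6a16_nt.EvenPositiveDensity

open NumberField IsDedekindDomain Pool.Agent.H47T

/-- The first case of Fermat's Last Theorem holds over `K` for all exponents divisible by `2 p`. -/
def FirstCase (K : Type) [Field K] [NumberField K] (p : ℕ) : Prop :=
  ∀ n : ℕ, 2 * p ∣ n → ∀ x y z : K, x ^ n + y ^ n = z ^ n → x ≠ 0 → y ≠ 0 → z ≠ 0 →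
    ∃ v : HeightOneSpectrum (𝓞 K), ((p : ℕ) : 𝓞 K) ∈ v.asIdeal ∧
      ¬ (v.valuation K x = v.valuation K y ∧ v.valuation K y = v.valuation K z)

theorem result (K : Type) [Field K] [NumberField K] (v : HeightOneSpectrum (𝓞 K))
    (h2 : (2 : 𝓞 K) ∈ v.asIdeal)
    (hv : (∃ e : ℕ, (2 : 𝓞 K) ∈ v.asIdeal ^ e ∧ (2 : 𝓞 K) ∉ v.asIdeal ^ (e + 1) ∧
        (Odd e ∨ (Nat.card (𝓞 K ⧸ v.asIdeal) = 2 ∧ ¬ 4 ∣ e))) ∨
      (Nat.card (𝓞 K ⧸ v.asIdeal) = 2 ∧
        ¬ (IsSquare (-1 : v.adicCompletion K) ∧ IsSquare (2 : v.adicCompletion K)) ∧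
        ¬ (IsSquare (-2 : v.adicCompletion K) ∧ IsSquare (-5 : v.adicCompletion K)))) :
    ∃ c : ℝ, 0 < c ∧ ∀ᶠ X : ℕ in Filter.atTop, c * (Nat.primeCounting X : ℝ) ≤
      Nat.card {p : ℕ // p ≤ X ∧ p.Prime ∧ FirstCase K p} := by
  have hres : Nat.card (𝓞 K ⧸ v.asIdeal) = 2 ∨
      ∃ e : ℕ, Odd e ∧ (2 : 𝓞 K) ∈ v.asIdeal ^ e ∧ (2 : 𝓞 K) ∉ v.asIdeal ^ (e + 1) := by
    rcases hv with ⟨e, h3, h4, h5 | h5⟩ | h5
    · exact Or.inr ⟨e, h5, h3, h4⟩
    · exact Or.inl h5.1
    · exact Or.inl h5.1
  have hcnd : ∃ M q : ℕ, (q = 3 ∨ q = 5 ∨ q = 7) ∧ ∀ i j k : ℕ,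
      Sq v M ((-1) ^ i * 2 ^ j * (q : K) ^ k) → s1 q ^ i * s2 q ^ j * (-1) ^ k = 1 := by
    rcases hv with ⟨e, h3, h4, h5⟩ | ⟨h5, h6, h7⟩
    · exact mainCND K v e h2 h3 h4 h5
    · exact mainCND2 K v h2 h5 h6 h7
  obtain ⟨c, hc, h⟩ := mainTQ2 mainEVA mainLOC2 mainLOCP mainPOS mainALLU mainFIN mainSQ8 mainLIN
    mainKUM mainDEN mainSYM v h2 hres hcnd
  refine ⟨c, hc, h.mono fun X hX => hX.trans (Nat.cast_le.2 ?_)⟩
  have key : ∀ p : ℕ, (p ≤ X ∧ p.Prime ∧ ∀ x y z : K, x ≠ 0 → y ≠ 0 → z ≠ 0 →
        x ^ (2 * p) + y ^ (2 * p) = z ^ (2 * p) →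
        ¬ ∀ w : HeightOneSpectrum (𝓞 K), ((p : ℕ) : 𝓞 K) ∈ w.asIdeal →
          w.valuation K x = w.valuation K z ∧ w.valuation K y = w.valuation K z) →
      (p ≤ X ∧ p.Prime ∧ FirstCase K p) := by
    rintro p ⟨h1, h2, h3⟩
    refine ⟨h1, h2, fun n hn x y z h hx hy hz => ?_⟩
    by_contra hcon
    push Not at hcon
    obtain ⟨k, rfl⟩ := hn
    refine h3 (x ^ k) (y ^ k) (z ^ k) (pow_ne_zero k hx) (pow_ne_zero k hy) (pow_ne_zero k hz) ?_ ?_
    · rw [← pow_mul, ← pow_mul, ← pow_mul, mul_comm k (2 * p), h]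
    · intro w hw
      obtain ⟨h4, h5⟩ := hcon w hw
      rw [map_pow, map_pow, map_pow, h4, h5]
      exact ⟨rfl, rfl⟩
  have hfin : Finite {p : ℕ // p ≤ X ∧ p.Prime ∧ FirstCase K p} :=
    Set.Finite.to_subtype ((Set.finite_le_nat X).subset fun p hp => hp.1)
  refine Nat.card_le_card_of_injective (fun p => ⟨p.1, key p.1 p.2⟩) ?_
  intro p p' hpp
  exact Subtype.ext (congrArg (fun r => r.1) hpp)

end Pool.Agent.Results.MP_ef6a16_nt.EvenPositiveDensity
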