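import Pool.Agent.H47T.Asm8
import Pool.Agent.H47T.LOCM
import Pool.Agent.H47T.ALLU

/-!
# Exponents `l ^ k p` over general number fields, with explicit primes `p`

Let `K` be a number field, `l ≠ p` primes, `p` odd, `k ≥ 1`. Suppose that for the primes `P` of `K`
above `l`, with ramification index `e_P` prime to `l` and `k e_P < l ^ k`, the number `N P - 1` is not
divisible by `p`, and that `l = 3`, or `(a + b) ^ l = a ^ l + b ^ l` modulo `l P` has no solution with
`a, b, a + b` prime to `P`. (For `l = 2`: `e_P` is odd or `N P = 2`, and `(k + 1) e_P < 2 ^ k`.) Let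
`x ^ n + y ^ n = z ^ n` with nonzero `x, y, z` in `K`, where `l ^ k p` divides `n`, and let `D` be the sum
of the local degrees of the primes above `p` at which `x, y, z` have the same valuation (the primes
above `p` of ramification index at least `p - 1`, if any, are supposed to be among them). Then
`p ^ (D (l - 1))` is congruent to `1` modulo `l ^ (k + 1)` (modulo `2 ^ (k + 2)` if `l = 2`).

For instance let three be unramified in `K`, let `p ≥ 5` be not `1` or `-1` modulo `9` and prime to the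
numbers `N P - 1`, and let `n` be divisible by `3 p`. Then `D` is divisible by three. So if the degree
`d` of `K` is prime to three the first case (`D = d`) of Fermat's Last Theorem holds over `K` for all
exponents divisible by `3 p`; and if `d ≤ 2` then there is no prime above `p` at which `x, y, z` have the
same valuation. If `n` is divisible by `3 ^ k p` the same holds with `p ^ (2 D) ≡ 1` modulo
`3 ^ (k + 1)`; so `D = 0` if `p ^ (2 j)` is not `1` modulo `3 ^ (k + 1)` for all `0 < j ≤ d`. There is no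
condition on the class group, the units and the signature of `K`, none of Bernoulli or Wieferich
type at `p`, and the primes `p` are given by congruences which depend only on the degree of `K` and
the residue degrees above `l`.

Proof. Let `m = l ^ k`, `X = x ^ m`, `Y = y ^ m`, `Z = z ^ m` (we may assume `n = m p`), and let `B` be the
product of `(X ^ p + Y ^ p) / (X + Y)`, `(Z ^ p - Y ^ p) / (Z - Y)` and `(Z ^ p - X ^ p) / (Z - X)`. The
valuation of `B` is divisible by `m` at all primes, except that at the primes above `p` at which the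
valuations of `x, y, z` are not equal it is that of `p` plus a multiple of `m`. So the norm of `B` is
`p ^ (d - D)` times an `m`-th power (it is positive). At every prime above `l` exactly one of
`X, Y, Z` is more divisible than the others, so one of the three factors is `p` times an `m`-th power and
the others are `m`-th powers, up to factors close to one. Hence the norm of `B` is `p ^ d` times an
`m`-th power times a number congruent to `1` modulo `l ^ (k + 1)`.
-/

set_option autoImplicit false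

namespace Pool.Agent.Results.MP_ef6a16_nt.LocalDegrees

open NumberField IsDedekindDomain Pool.Agent.H47T

/-- The condition at a prime `P` above `l`; `e` is its ramification index. -/
def LocalCondition {K : Type} [Field K] [NumberField K] (l k : ℕ)
    (P : HeightOneSpectrum (𝓞 K)) : Prop :=
  ∃ e : ℕ, (l : 𝓞 K) ∈ P.asIdeal ^ e ∧ (l : 𝓞 K) ∉ P.asIdeal ^ (e + 1) ∧
    ((l = 2 ∧ (k + 1) * e < 2 ^ k ∧ (Odd e ∨ Nat.card (𝓞 K ⧸ P.asIdeal) = 2)) ∨
      (l ≠ 2 ∧ k * e < l ^ k ∧ ¬ l ∣ e ∧ (l = 3 ∨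
        ∀ a b : 𝓞 K, a ∉ P.asIdeal → b ∉ P.asIdeal → a + b ∉ P.asIdeal →
          (a + b) ^ l - a ^ l - b ^ l ∉ Ideal.span {(l : 𝓞 K)} * P.asIdeal)))

theorem val_of_mem {K : Type} [Field K] [NumberField K] {l : ℕ} (P : HeightOneSpectrum (𝓞 K))
    {e : ℕ} (h1 : (l : 𝓞 K) ∈ P.asIdeal ^ e) (h2 : (l : 𝓞 K) ∉ P.asIdeal ^ (e + 1)) :
    P.valuation K (l : K) = WithZero.exp (-(e : ℤ)) := by
  have hval : P.valuation K (l : K) = P.intValuation ((l : ℕ) : 𝓞 K) := by
    rw [← P.valuation_of_algebraMap (K := K)]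
    simp
  have hl0 : ((l : ℕ) : 𝓞 K) ≠ 0 := by
    intro h0
    rw [h0] at h2
    exact h2 (Ideal.zero_mem _)
  have hv0 : P.intValuation ((l : ℕ) : 𝓞 K) ≠ 0 := P.intValuation_ne_zero _ hl0
  rw [hval]
  have e1 : P.intValuation ((l : ℕ) : 𝓞 K) ≤ WithZero.exp (-((e : ℕ) : ℤ)) := by
    rw [P.intValuation_le_pow_iff_mem]; exact h1
  have e3 : ¬ P.intValuation ((l : ℕ) : 𝓞 K) ≤ WithZero.exp (-((e + 1 : ℕ) : ℤ)) := by
    rw [P.intValuation_le_pow_iff_mem]; exact h2
  rw [← WithZero.exp_log hv0] at e1 e3 ⊢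
  rw [WithZero.exp_le_exp] at e1 e3
  rw [WithZero.exp_inj]
  push_cast at e1 e3
  omega

theorem result (K : Type) [Field K] [NumberField K] (p l k n : ℕ) (hp : p.Prime) (hp2 : p ≠ 2)
    (hl : l.Prime) (hpl : p ≠ l) (hk : 1 ≤ k) (hn : l ^ k * p ∣ n)
    (hloc : ∀ P : HeightOneSpectrum (𝓞 K), ((l : ℕ) : 𝓞 K) ∈ P.asIdeal →
      LocalCondition l k P ∧ ¬ p ∣ Nat.card (𝓞 K ⧸ P.asIdeal) - 1)
    -- the ramification indices and residue degrees of the primes above `p`
    (e f : HeightOneSpectrum (𝓞 K) → ℕ)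
    (hef : ∀ v : HeightOneSpectrum (𝓞 K), ((p : ℕ) : 𝓞 K) ∈ v.asIdeal →
      ((p : ℕ) : 𝓞 K) ∈ v.asIdeal ^ e v ∧ ((p : ℕ) : 𝓞 K) ∉ v.asIdeal ^ (e v + 1) ∧
      Nat.card (𝓞 K ⧸ v.asIdeal) = p ^ f v)
    (x y z : K) (hxyz : x ^ n + y ^ n = z ^ n) (hx : x ≠ 0) (hy : y ≠ 0) (hz : z ≠ 0)
    -- the set of the primes above `p` at which the three valuations are equal
    (T : Finset (HeightOneSpectrum (𝓞 K)))
    (hT : ∀ v, v ∈ T ↔ ((p : ℕ) : 𝓞 K) ∈ v.asIdeal ∧
      v.valuation K x = v.valuation K y ∧ v.valuation K y = v.valuation K z)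
    (hep : ∀ v : HeightOneSpectrum (𝓞 K), ((p : ℕ) : 𝓞 K) ∈ v.asIdeal → v ∉ T → e v + 1 < p) :
    p ^ ((∑ v ∈ T, e v * f v) * (l - 1)) ≡ 1 [MOD l ^ (if l = 2 then k + 2 else k + 1)] := by
  obtain ⟨j, rfl⟩ := hn
  have hj0 : j ≠ 0 := by
    rintro rfl
    rw [mul_zero, pow_zero, pow_zero, pow_zero] at hxyz
    have : (1 : K) = 0 := by linear_combination hxyz
    exact one_ne_zero this
  obtain ⟨i, rfl⟩ : ∃ i, k = i + 1 := ⟨k - 1, by omega⟩
  have heq : (x ^ j) ^ (l ^ (i + 1) * p) + (y ^ j) ^ (l ^ (i + 1) * p) =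
      (z ^ j) ^ (l ^ (i + 1) * p) := by
    rw [← pow_mul, ← pow_mul, ← pow_mul, mul_comm j (l ^ (i + 1) * p), hxyz]
  have hx0 : x ^ j ≠ 0 := pow_ne_zero j hx
  have hy0 : y ^ j ≠ 0 := pow_ne_zero j hy
  have hz0 : z ^ j ≠ 0 := pow_ne_zero j hz
  -- equality of the valuations of the powers
  have hpw : ∀ (v : HeightOneSpectrum (𝓞 K)) (a b : K),
      v.valuation K (a ^ j) = v.valuation K (b ^ j) ↔ v.valuation K a = v.valuation K b :=
    fun v a b => pow_eq_iff' v hj0 a b
  have hT' : ∀ v, v ∈ T ↔ ((p : ℕ) : 𝓞 K) ∈ v.asIdeal ∧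
      v.valuation K (x ^ j) = v.valuation K (z ^ j) ∧
      v.valuation K (y ^ j) = v.valuation K (z ^ j) := by
    intro v
    rw [hT, hpw, hpw]
    constructor
    · rintro ⟨h1, h2, h3⟩
      exact ⟨h1, h2.trans h3, h3⟩
    · rintro ⟨h1, h2, h3⟩
      exact ⟨h1, h2.trans h3.symm, h3⟩
  -- the equation of exponent `l`
  have hle : ∀ a : K, ((a ^ j) ^ (l ^ i * p)) ^ l = (a ^ j) ^ (l ^ (i + 1) * p) := by
    intro a
    rw [← pow_mul]
    congr 1
    ring
  have hnot : ∀ v : HeightOneSpectrum (𝓞 K),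
      (∀ X Y Z : K, X ≠ 0 → Y ≠ 0 → Z ≠ 0 → X ^ l + Y ^ l = Z ^ l →
        ¬ (v.valuation K X = v.valuation K Z ∧ v.valuation K Y = v.valuation K Z)) →
      ¬ (v.valuation K (x ^ j) = v.valuation K (z ^ j) ∧
        v.valuation K (y ^ j) = v.valuation K (z ^ j)) := by
    rintro v h1 ⟨h2, h3⟩
    refine h1 ((x ^ j) ^ (l ^ i * p)) ((y ^ j) ^ (l ^ i * p)) ((z ^ j) ^ (l ^ i * p))
      (pow_ne_zero _ hx0) (pow_ne_zero _ hy0) (pow_ne_zero _ hz0) ?_ ?_
    · rw [hle, hle, hle, heq]
    · rw [map_pow _ (x ^ j), map_pow _ (y ^ j), map_pow _ (z ^ j), h2, h3]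
      exact ⟨rfl, rfl⟩
  have hkap : (if l = 2 then (i + 1) + 2 else (i + 1) + 1) = kap l (i + 1) + 1 := by
    unfold kap
    split_ifs <;> rfl
  rw [hkap]
  refine mainTQ6 mainEVW mainNRN mainAPP mainRAT mainRAT2 mainPOSN mainNFAC hl (by omega) hp hp2 hpl
    (fun P hP => (hloc P hP).2) hx0 hy0 hz0 heq (fun P hP => ?_) (fun P hP => ?_) e f
    (fun v hv => val_of_mem v (hef v hv).1 (hef v hv).2.1) (fun v hv => ?_) (fun v hv hbad => ?_) T hT'
  · -- the first case is impossible at `P`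
    obtain ⟨⟨eP, h1, h2, h3⟩, -⟩ := hloc P hP
    rcases h3 with ⟨rfl, -, h4⟩ | ⟨hl2, -, h5, h6⟩
    · refine hnot P (mainALLU K P (by simpa using hP) ?_)
      rcases h4 with h4 | h4
      · exact Or.inr ⟨eP, h4, by simpa using h1, by simpa using h2⟩
      · exact Or.inl h4
    · have heP : 0 < eP := Nat.pos_of_ne_zero fun h0 => h5 (h0 ▸ dvd_zero l)
      refine hnot P (mainLOCM l hl hl2 K P eP (val_of_mem P h1 h2) heP h5 ?_)
      intro a b ha hb hab h7
      have hcomb : ((l : ℕ) : 𝓞 K) * (∑ i ∈ Finset.Ioo 0 l, ((l.choose i / l : ℕ) : 𝓞 K) * a ^ i *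
          b ^ (l - i)) = (a + b) ^ l - a ^ l - b ^ l := by
        rw [Finset.mul_sum]
        have h8 : (a + b) ^ l = ∑ i ∈ Finset.range (l + 1), a ^ i * b ^ (l - i) * (l.choose i : ℕ) :=
          add_pow a b l
        have h9 : Finset.range (l + 1) = insert 0 (insert l (Finset.Ioo 0 l)) := by
          ext t
          simp only [Finset.mem_range, Finset.mem_insert, Finset.mem_Ioo]
          have := hl.pos
          omega
        rw [h8, h9, Finset.sum_insert (by simp [hl.ne_zero.symm]), Finset.sum_insert (by simp)]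
        simp only [pow_zero, Nat.sub_zero, Nat.choose_zero_right, Nat.cast_one, Nat.sub_self,
          Nat.choose_self, one_mul, mul_one]
        have h10 : ∀ t ∈ Finset.Ioo 0 l, ((l : ℕ) : 𝓞 K) * (((l.choose t / l : ℕ) : 𝓞 K) * a ^ t *
            b ^ (l - t)) = a ^ t * b ^ (l - t) * ((l.choose t : ℕ) : 𝓞 K) := by
          intro t ht
          obtain ⟨ht1, ht2⟩ := Finset.mem_Ioo.1 ht
          have h11 : l ∣ l.choose t := hl.dvd_choose_self ht1.ne' ht2
          have h12 : ((l : ℕ) : 𝓞 K) * ((l.choose t / l : ℕ) : 𝓞 K) = ((l.choose t : ℕ) : 𝓞 K) := by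
            rw [← Nat.cast_mul, Nat.mul_div_cancel' h11]
          linear_combination a ^ t * b ^ (l - t) * h12
        rw [Finset.sum_congr rfl h10]
        ring
      rcases h6 with rfl | h6
      · have h13 : (∑ i ∈ Finset.Ioo 0 3, (((3 : ℕ).choose i / 3 : ℕ) : 𝓞 K) * a ^ i *
            b ^ (3 - i)) = a * b * (a + b) := by
          have h7 : Finset.Ioo 0 3 = {1, 2} := by decide
          rw [h7, Finset.sum_insert (by norm_num), Finset.sum_singleton]
          norm_num [Nat.choose]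
          ring
        rw [h13] at h7
        rcases P.isPrime.mem_or_mem h7 with h8 | h8
        · rcases P.isPrime.mem_or_mem h8 with h8 | h8
          · exact ha h8
          · exact hb h8
        · exact hab h8
      · apply h6 a b ha hb hab
        rw [← hcomb]
        exact Ideal.mul_mem_mul (Ideal.mem_span_singleton_self _) h7
  · -- the precision
    obtain ⟨⟨eP, h1, h2, h3⟩, -⟩ := hloc P hP
    rw [val_of_mem P h1 h2, ← WithZero.exp_nsmul, ← WithZero.exp_add, WithZero.exp_le_exp]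
    simp only [nsmul_eq_mul]
    rcases h3 with ⟨rfl, h4, -⟩ | ⟨hl2, h4, -, -⟩
    · have h5 : kap 2 (i + 1) = i + 2 := by simp [kap]
      rw [h5]
      have h6 : ((i + 1 + 1) * eP + 1 : ℤ) ≤ ((2 ^ (i + 1) : ℕ) : ℤ) := by exact_mod_cast h4
      push_cast at h6 ⊢
      linarith
    · have h5 : kap l (i + 1) = i + 1 := by simp [kap, hl2]
      rw [h5]
      have h6 : ((i + 1) * eP + 1 : ℤ) ≤ ((l ^ (i + 1) : ℕ) : ℤ) := by exact_mod_cast h4
      push_cast at h6 ⊢
      linarith
  · rw [← (hef v hv).2.2, Ideal.absNorm_apply, Submodule.cardQuot_apply]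
  · exact hep v hv fun h4 => hbad ((hT' v).1 h4).2

end Pool.Agent.Results.MP_ef6a16_nt.LocalDegrees
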